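import Pool.Agent.H452.SRT.Main

/-!
# The structure of finite soluble simply reducible groups

Every finite soluble simply reducible group `G` has normal subgroups
`1 = N 0 ≤ N 1 ≤ N 2 ≤ N 3 ≤ N 4 ≤ N 5 = G` such that `N 1 / N 0`, `N 3 / N 2`, `N 5 / N 4` are
`2`-groups and `N 2 / N 1`, `N 4 / N 3` are nilpotent of odd order. In particular `h(G) ≤ 5`, the
question; and `G` has `2`-length at most three.

The starting result `NilpotentLengthFive` is the weaker statement without the restriction of the
factors to alternate between `2`-groups and nilpotent groups of odd order. The proof here carries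
the kinds of the factors through the induction of the starting library.
-/

set_option autoImplicit false
open CategoryTheory MonoidalCategory

namespace Pool.Agent.Results.MP_3a9bc7_al.TwoLengthThree

/-- `G` is simply reducible: every element is conjugate to its inverse, and every irreducible
complex representation `U` occurs in the tensor product of two irreducible complex representations
`V`, `W` with multiplicity `dim Hom(U, V ⊗ W) ≤ 1`. -/
def SimplyReducible (G : Type) [Group G] : Prop :=
  (∀ g : G, IsConj g g⁻¹) ∧
  ∀ U V W : FDRep ℂ G, CategoryTheory.Simple U → CategoryTheory.Simple V →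
    CategoryTheory.Simple W → Module.finrank ℂ (U ⟶ V ⊗ W) ≤ 1

/-- The factor `B / A` of two normal subgroups `A ≤ B`. -/
abbrev Factor {G : Type} [Group G] (A B : Subgroup G) [A.Normal] : Type := ↥B ⧸ A.subgroupOf B

/-- Every finite soluble simply reducible group `G` has a chain of normal subgroups
`1 = N 0 ≤ N 1 ≤ N 2 ≤ N 3 ≤ N 4 ≤ N 5 = G` with all factors `N (i+1) / N i` nilpotent (so
`h(G) ≤ 5`), where moreover the factors with `i = 0, 2, 4` are `2`-groups and the factors with
`i = 1, 3` have odd order. -/
theorem result (G : Type) [Group G] [Fintype G] (hG : Group.IsSolvable G)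
    (hSR : SimplyReducible G) :
    ∃ (N : Fin 6 → Subgroup G) (_ : ∀ i, (N i).Normal), N 0 = ⊥ ∧ N 5 = ⊤ ∧
      ∀ i : Fin 5, N i.castSucc ≤ N i.succ ∧
        Group.IsNilpotent (Factor (N i.castSucc) (N i.succ)) ∧
        (Even (i : ℕ) → IsPGroup 2 (Factor (N i.castSucc) (N i.succ))) ∧
        (Odd (i : ℕ) → Odd (Nat.card (Factor (N i.castSucc) (N i.succ)))) := by
  have hP : Helper453.SR.PairInv G := Helper453.SR.NA5.A5 hSR.1 hSR.2
  obtain ⟨N, hN, h0, h5, h⟩ := H452.SRT.chain _ (H452.SRT.I5' hP)
  refine ⟨fun i : Fin 6 => N (i : ℕ), fun i => hN _, h0, h5, fun i => ?_⟩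
  have : Fact (Nat.Prime 2) := ⟨Nat.prime_two⟩
  have key : ∀ i : ℕ, Even i → ∀ hi : i < 5, IsPGroup 2 (Factor (N i) (N (i + 1))) := by
    intro i he hi
    have h1 := (h i hi).2
    interval_cases i
    · exact h1
    · exact absurd he (by decide)
    · exact h1
    · exact absurd he (by decide)
    · exact h1
  have key2 : ∀ i : ℕ, Odd i → ∀ hi : i < 5, Group.IsNilpotent (Factor (N i) (N (i + 1))) ∧
      Odd (Nat.card (Factor (N i) (N (i + 1)))) := by
    intro i he hi
    have h1 := (h i hi).2
    interval_cases i
    · exact absurd he (by decide)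
    · exact h1
    · exact absurd he (by decide)
    · exact h1
    · exact absurd he (by decide)
  refine ⟨(h i i.2).1, ?_, fun he => key i he i.2, fun ho => (key2 i ho i.2).2⟩
  rcases Nat.even_or_odd (i : ℕ) with he | ho
  · exact (key i he i.2).isNilpotent
  · exact (key2 i ho i.2).1

end Pool.Agent.Results.MP_3a9bc7_al.TwoLengthThree
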